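import Mathlib
import Pool.Agent.K1H50.ST.Fin

/-!
# Every 6-connected graph has an `(s,t)`-triple

This answers the question of MP_cc4643_co with `K = 6`.  Graphs are finite and loopless and may have
parallel edges: such a graph is given by a vertex type `V`, an edge type `E` and the two ends of every
edge.
-/

set_option autoImplicit false

namespace Pool.Agent.Results.MP_cc4643_co.SixConnected

/-- A loopless graph with vertex type `V` and edge type `E`: every edge has two distinct ends.
Parallel edges are allowed. -/
structure Graph (V E : Type) where
  /-- the two ends of an edge -/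
  ends : E → Sym2 V
  /-- the two ends are distinct -/
  loopless : ∀ e, ¬ (ends e).IsDiag

variable {V E : Type}

/-- The simple graph on the same vertices in which two vertices are adjacent when they are joined by
at least one edge. -/
def Graph.simple (G : Graph V E) : SimpleGraph V := SimpleGraph.fromEdgeSet (Set.range G.ends)

/-- `G` is `K`-connected: it has at least `K + 1` vertices and stays connected after deleting any set
of fewer than `K` vertices. -/
def Graph.KConnected [Fintype V] (K : ℕ) (G : Graph V E) : Prop :=
  K + 1 ≤ Fintype.card V ∧
    ∀ X : Finset V, X.card < K → (G.simple.induce ((X : Set V)ᶜ)).Connected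

/-- The set `T` of edges is (the edge set of) a spanning tree of `G`: no two of its edges are
parallel and the graph they form on the vertices is a tree. -/
def Graph.IsSpanningTree (G : Graph V E) (T : Set E) : Prop :=
  Set.InjOn G.ends T ∧ (SimpleGraph.fromEdgeSet (G.ends '' T)).IsTree

/-- `G` has an `(s,t)`-triple: a total order on the vertices and two spanning trees `I`, `O` with no
common edge, such that every vertex other than `t` is joined by an edge of `I` to a larger vertex and
every vertex other than `s` is joined by an edge of `O` to a smaller vertex. -/
def Graph.HasTriple (G : Graph V E) (s t : V) : Prop :=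
  ∃ (_ : LinearOrder V) (I O : Set E),
    G.IsSpanningTree I ∧ G.IsSpanningTree O ∧ Disjoint I O ∧
    (∀ v, v ≠ t → ∃ e ∈ I, ∃ u, G.ends e = s(v, u) ∧ v < u) ∧
    (∀ v, v ≠ s → ∃ e ∈ O, ∃ u, G.ends e = s(v, u) ∧ u < v)

/-- Every 6-connected graph has an `(s,t)`-triple for some two distinct vertices `s`, `t`. -/
theorem result : ∀ (V E : Type) [Fintype V] (G : Graph V E), G.KConnected 6 →
    ∃ s t : V, s ≠ t ∧ G.HasTriple s t := by
  intro V E _ G h
  exact Pool.Agent.K1H50.ST.final ⟨G.ends, G.loopless⟩ h

end Pool.Agent.Results.MP_cc4643_co.SixConnected
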